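import Pool.Agent.helper46.ESM.Spec

/-! # Row es:SNL: a simple group with a nontrivial right Engel automorphism is not in the class `InL` -/

set_option autoImplicit false

namespace Pool.Agent.helper46.ESM

open Subgroup Pool.Agent.helper80.EN

universe u

theorem SNL_icom {G : Type u} [Group G] (B : Subgroup G) (a g : B) (n : ℕ) :
    ((icom a g n : B) : G) = icom (a : G) (g : G) n := by
  induction n with
  | zero => rfl
  | succ n ih =>
    show ((com (icom a g n) g : B) : G) = com (icom (a : G) (g : G) n) (g : G)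
    rw [← ih]
    rfl

theorem SNL_conj_normal (S : Type u) [Group S] : ((MulAut.conj : S →* MulAut S).range).Normal := by
  constructor
  rintro _ ⟨s, rfl⟩ φ
  refine ⟨φ s, ?_⟩
  ext x
  simp

theorem SNL_conj_injective (S : Type u) [Group S] (hS : IsSimpleGroup S) (hne : ∃ x y : S, x * y ≠ y * x) :
    Function.Injective (MulAut.conj : S →* MulAut S) := by
  rw [injective_iff_map_eq_one]
  intro s hs
  have hc : s ∈ center S := by
    rw [mem_center_iff]
    intro g
    have h := congrArg (fun φ : MulAut S => φ g) hs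
    simp only [MulAut.conj_apply, MulAut.one_apply] at h
    rw [mul_inv_eq_iff_eq_mul] at h
    exact h.symm
  rcases hS.eq_bot_or_eq_top_of_normal (center S) inferInstance with h | h
  · rw [h] at hc
    exact mem_bot.1 hc
  · exfalso
    obtain ⟨x, y, hxy⟩ := hne
    have hx : x ∈ center S := by rw [h]; exact mem_top x
    exact hxy (mem_center_iff.1 hx y).symm

theorem SNL (hCEN : CEN_stmt.{u}) (hRLE : RLE_stmt.{u}) (hMAJ : MAJ_stmt.{u}) (hLAB : LAB_stmt.{u}) :
    SNL_stmt.{u} := by
  intro S _ α hS hfg hne hα1 hα hL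
  have hinj := SNL_conj_injective S hS hne
  have hN : ((MulAut.conj : S →* MulAut S).range).Normal := SNL_conj_normal S
  let I : Subgroup (InnExt S α) := ((MulAut.conj : S →* MulAut S).range).subgroupOf (InnExt S α)
  have hI : I.Normal := hN.subgroupOf _
  let a : InnExt S α := ⟨α, (le_sup_right : zpowers α ≤ InnExt S α) (mem_zpowers α)⟩
  -- `I` is isomorphic to a subgroup of `S`
  have hIL : InL I := by
    let e : S ≃* (MulAut.conj : S →* MulAut S).range := MonoidHom.ofInjective hinj
    let f : I →* (MulAut.conj : S →* MulAut S).range :=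
      { toFun := fun x => ⟨((x : InnExt S α) : MulAut S), x.2⟩
        map_one' := rfl
        map_mul' := fun _ _ => rfl }
    refine InL.sub (e.symm.toMonoidHom.comp f) ?_ hL
    intro x y hxy
    have h1 : f x = f y := e.symm.injective hxy
    apply Subtype.ext
    apply Subtype.ext
    have h2 : ((f x : (MulAut.conj : S →* MulAut S).range) : MulAut S) = (f y : (MulAut.conj : S →* MulAut S).range) := by
      rw [h1]
    exact h2
  -- the quotient is cyclic
  have hq : ∀ b : InnExt S α, ∃ n : ℤ, (QuotientGroup.mk' I b) = (QuotientGroup.mk' I a) ^ n := by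
    intro b
    have hb : (b : MulAut S) ∈ ((((MulAut.conj : S →* MulAut S).range ⊔ zpowers α : Subgroup (MulAut S))) : Set (MulAut S)) :=
      b.2
    rw [Subgroup.normal_mul] at hb
    obtain ⟨c, hc, d, hd, hcd⟩ := Set.mem_mul.1 hb
    obtain ⟨n, rfl⟩ := mem_zpowers_iff.1 hd
    refine ⟨n, ?_⟩
    rw [← map_zpow]
    apply QuotientGroup.eq_iff_div_mem.2
    show ((b / a ^ n : InnExt S α) : MulAut S) ∈ (MulAut.conj : S →* MulAut S).range
    have h2 : ((b / a ^ n : InnExt S α) : MulAut S) = c := by
      show (b : MulAut S) / α ^ n = c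
      rw [← hcd]
      exact mul_div_cancel_right c (α ^ n)
    rw [h2]
    exact hc
  have hQL : InL ((InnExt S α) ⧸ I) := by
    apply hLAB
    intro x y
    obtain ⟨x', rfl⟩ := QuotientGroup.mk'_surjective I x
    obtain ⟨y', rfl⟩ := QuotientGroup.mk'_surjective I y
    obtain ⟨n, hn⟩ := hq x'
    obtain ⟨m, hm⟩ := hq y'
    rw [hn, hm, ← zpow_add, ← zpow_add, add_comm]
  have hBL : InL (InnExt S α) := InL.ext I hIL hQL
  have hRE : RightEngel a := by
    intro g
    obtain ⟨n, hn⟩ := hα g g.2
    refine ⟨n, Subtype.ext ?_⟩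
    rw [SNL_icom]
    exact hn
  have h3 := hMAJ (InnExt S α) hBL a⁻¹ (hRLE (InnExt S α) a hRE)
  have h4 := hCEN S α hS hfg hne a⁻¹ h3
  have h5 : a = 1 := inv_eq_one.1 h4
  exact hα1 (congrArg Subtype.val h5)

end Pool.Agent.helper46.ESM
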